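import Mathlib
import Pool.Agent.Helper15.Iso.Final

namespace Pool.Agent.Results.MP_98010f_co.IsometricChambersCoxeter

section
variable {V : Type} [NormedAddCommGroup V] [InnerProductSpace ℝ V]

/-- A linear hyperplane of `V`: a linear subspace of dimension `dim V - 1`. -/
def IsHyperplane (H : Submodule ℝ V) : Prop :=
  Module.finrank ℝ H + 1 = Module.finrank ℝ V

/-- The points of `V` lying on no member of `A`. -/
def Complement (A : Set (Submodule ℝ V)) : Set V :=
  {x | ∀ H ∈ A, x ∉ H}

/-- Chambers: the closures of the connected components of the complement. -/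
def IsChamber (A : Set (Submodule ℝ V)) (C : Set V) : Prop :=
  ∃ x ∈ Complement A, C = closure (connectedComponentIn (Complement A) x)

/-- Any two chambers are exchanged by an isometry of the ambient space. -/
def HasIsometricChambers (A : Set (Submodule ℝ V)) : Prop :=
  ∀ C C', IsChamber A C → IsChamber A C' → ∃ g : V ≃ᵢ V, g '' C = C'

/-- `W` is generated by orthogonal reflections in hyperplanes. -/
def IsReflectionGroup [FiniteDimensional ℝ V] (W : Subgroup (V ≃ₗᵢ[ℝ] V)) : Prop :=
  ∃ T : Set (Submodule ℝ V), (∀ H ∈ T, IsHyperplane H) ∧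
    W = Subgroup.closure {s | ∃ H ∈ T, s = H.reflection}

/-- The hyperplanes whose orthogonal reflection lies in `W`. -/
def reflectingHyperplanes [FiniteDimensional ℝ V] (W : Subgroup (V ≃ₗᵢ[ℝ] V)) :
    Set (Submodule ℝ V) :=
  {H | IsHyperplane H ∧ H.reflection ∈ W}

/-- `A` is the set of all reflecting hyperplanes of a finite group of linear isometries
generated by orthogonal reflections. -/
def IsCoxeterArrangement [FiniteDimensional ℝ V] (A : Set (Submodule ℝ V)) : Prop :=
  ∃ W : Subgroup (V ≃ₗᵢ[ℝ] V), Finite W ∧ IsReflectionGroup W ∧ A = reflectingHyperplanes W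

end

/-- For every `n`, every finite real linear hyperplane arrangement in Euclidean `ℝⁿ` with
isometric chambers is a Coxeter arrangement. -/
theorem result : ∀ (n : ℕ) (A : Set (Submodule ℝ (EuclideanSpace ℝ (Fin n)))), A.Finite →
    (∀ H ∈ A, IsHyperplane H) → HasIsometricChambers A → IsCoxeterArrangement A := by
  intro n A hfin hH hiso
  have hdim : Module.finrank ℝ (EuclideanSpace ℝ (Fin n)) = n := by simp
  have hH' : ∀ H : Submodule ℝ (EuclideanSpace ℝ (Fin n)), IsHyperplane H ↔
      Pool.Agent.Helper15.Iso.IsHyperplane H := by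
    intro H
    unfold IsHyperplane Pool.Agent.Helper15.Iso.IsHyperplane
    rw [hdim]
  have hC : Complement A = Pool.Agent.Helper15.Iso.Compl A := by
    ext x
    simp [Complement, Pool.Agent.Helper15.Iso.Compl]
  have hiso' : Pool.Agent.Helper15.Iso.IsometricChambers A := by
    intro C C' hc hc'
    obtain ⟨x, hx, rfl⟩ := hc
    obtain ⟨x', hx', rfl⟩ := hc'
    rw [← hC] at hx hx' ⊢
    exact hiso _ _ ⟨x, hx, rfl⟩ ⟨x', hx', rfl⟩
  obtain ⟨W, hW, ⟨T, hT, hWT⟩, hAW⟩ :=
    Pool.Agent.Helper15.Iso.final A hfin (fun H h => (hH' H).1 (hH H h)) hiso'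
  refine ⟨W, hW, ⟨T, fun H h => (hH' H).2 (hT H h), hWT⟩, ?_⟩
  rw [hAW]
  ext H
  exact and_congr (hH' H).symm Iff.rfl

end Pool.Agent.Results.MP_98010f_co.IsometricChambersCoxeter
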